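import Pool.Agent.Helper99.GL.FSpec

/-!
Swarm `GL`, part F16a : boundedness at the roots of `b 0` (spiral argument).
-/

set_option autoImplicit false

open Metric Set Filter Topology

namespace Pool.GL.H63

/-- scalar comparison -/
theorem sq_bound {f : ℝ → ℂ} {f' : ℝ → ℂ} {T C : ℝ} (hT : 0 ≤ T)
    (hf : ∀ t ∈ Icc (0 : ℝ) T, HasDerivAt f (f' t) t)
    (hre : ∀ t ∈ Icc (0 : ℝ) T,
      ((starRingEnd ℂ (f t)) * f' t).re ≤ -(1 / 2) * ‖f t‖ ^ 2 + C * ‖f t‖) :
    ‖f T‖ ^ 2 ≤ ‖f 0‖ ^ 2 + 4 * C ^ 2 := by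
  -- u' = 2 Re (conj f * f')
  have hu : ∀ t ∈ Icc (0 : ℝ) T,
      HasDerivAt (fun t => ‖f t‖ ^ 2) (2 * ((starRingEnd ℂ (f t)) * f' t).re) t := by
    intro t ht
    have h1 := (hf t ht).norm_sq
    have h2 : (2 * inner ℝ (f t) (f' t)) = 2 * ((starRingEnd ℂ (f t)) * f' t).re := by
      rw [Complex.inner, mul_comm (f' t)]
    rw [h2] at h1
    exact h1
  have hw : ∀ t ∈ Icc (0 : ℝ) T,
      HasDerivAt (fun t => Real.exp (t / 2) * (‖f t‖ ^ 2 - 4 * C ^ 2))
        (Real.exp (t / 2) * (1 / 2) * (‖f t‖ ^ 2 - 4 * C ^ 2)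
          + Real.exp (t / 2) * (2 * ((starRingEnd ℂ (f t)) * f' t).re)) t := by
    intro t ht
    have h1 : HasDerivAt (fun t : ℝ => Real.exp (t / 2)) (Real.exp (t / 2) * (1 / 2)) t := by
      have := (hasDerivAt_id t).div_const 2
      exact this.exp
    exact h1.mul ((hu t ht).sub_const _)
  have hanti : AntitoneOn (fun t => Real.exp (t / 2) * (‖f t‖ ^ 2 - 4 * C ^ 2)) (Icc 0 T) := by
    apply antitoneOn_of_deriv_nonpos (convex_Icc 0 T)
    · intro t ht
      exact (hw t ht).continuousAt.continuousWithinAt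
    · intro t ht
      rw [interior_Icc] at ht
      exact (hw t (Ioo_subset_Icc_self ht)).differentiableAt.differentiableWithinAt
    · intro t ht
      rw [interior_Icc] at ht
      have ht' := Ioo_subset_Icc_self ht
      rw [(hw t ht').deriv]
      have h1 := hre t ht'
      have h2 : 0 < Real.exp (t / 2) := Real.exp_pos _
      have h3 : (1 / 2) * (‖f t‖ ^ 2 - 4 * C ^ 2) + 2 * ((starRingEnd ℂ (f t)) * f' t).re ≤ 0 := by
        nlinarith [sq_nonneg (‖f t‖ - 2 * C)]
      calc Real.exp (t / 2) * (1 / 2) * (‖f t‖ ^ 2 - 4 * C ^ 2)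
          + Real.exp (t / 2) * (2 * ((starRingEnd ℂ (f t)) * f' t).re)
          = Real.exp (t / 2) * ((1 / 2) * (‖f t‖ ^ 2 - 4 * C ^ 2)
            + 2 * ((starRingEnd ℂ (f t)) * f' t).re) := by ring
        _ ≤ 0 := mul_nonpos_of_nonneg_of_nonpos h2.le h3
  have h0 := hanti (left_mem_Icc.2 hT) (right_mem_Icc.2 hT) hT
  simp only [zero_div, Real.exp_zero, one_mul] at h0
  have h1 : 1 ≤ Real.exp (T / 2) := Real.one_le_exp (by linarith)
  by_contra hcon
  push Not at hcon
  have h2 : 0 < ‖f T‖ ^ 2 - 4 * C ^ 2 := by nlinarith [sq_nonneg ‖f 0‖]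
  nlinarith [sq_nonneg ‖f 0‖, sq_nonneg C]

theorem rootb_thm : S_ROOTB := by
  intro I hI k hk r φ hφ heq s₁ hs₁
  obtain ⟨hd1, him⟩ := hI.hyp s₁ hs₁
  set b0 := I.b 0 with hb0
  set a0 := I.a 0 with ha0
  set D1 : ℂ := (Polynomial.derivative b0).eval s₁ with hD1
  set lam : ℂ := a0.eval s₁ / D1 with hlam
  -- factor b0 = (X - s₁) * q
  obtain ⟨q, hq⟩ := Polynomial.dvd_iff_isRoot.2 (show Polynomial.IsRoot b0 s₁ from hs₁)
  have hqs : q.eval s₁ = D1 := by
    have h := congrArg (fun p => (Polynomial.derivative p).eval s₁) hq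
    simp only [Polynomial.derivative_mul, Polynomial.derivative_sub, Polynomial.derivative_X,
      Polynomial.derivative_C, sub_zero, one_mul, Polynomial.eval_add, Polynomial.eval_mul,
      Polynomial.eval_sub, Polynomial.eval_X, Polynomial.eval_C, sub_self, zero_mul,
      add_zero] at h
    rw [hD1]; exact h.symm
  have hqne : q.eval s₁ ≠ 0 := by rw [hqs]; exact hd1
  -- m s = (b0' - k a0) / q
  set N : Polynomial ℂ := Polynomial.derivative b0 - Polynomial.C (k : ℂ) * a0 with hN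
  set m : ℂ → ℂ := fun s => N.eval s / q.eval s with hm
  set ρ : ℂ → ℂ := fun s => r.eval s / q.eval s with hρ
  have hmc : ContinuousAt m s₁ := N.continuous.continuousAt.div q.continuous.continuousAt hqne
  have hρc : ContinuousAt ρ s₁ := r.continuous.continuousAt.div q.continuous.continuousAt hqne
  have hms : m s₁ = 1 - k * lam := by
    simp only [hm, hN, Polynomial.eval_sub, Polynomial.eval_mul, Polynomial.eval_C, hqs, hlam]
    field_simp
    rw [← hD1]
  set μ : ℂ := 1 - k * lam with hμ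
  have hμim : μ.im ≠ 0 := by
    have h1 : μ.im = -(k * lam.im) := by
      simp [hμ]
    rw [h1]
    have hk' : (k : ℝ) ≠ 0 := by positivity
    exact neg_ne_zero.2 (mul_ne_zero hk' him)
  -- choose ω
  set t0 : ℝ := -(1 + |μ.re|) / μ.im with ht0
  set ω : ℂ := -(1 + t0 * Complex.I) with hω
  have hωre : ω.re = -1 := by simp [hω]
  have hωμ : (ω * μ).re ≤ -1 := by
    have h1 : (ω * μ).re = - μ.re + t0 * μ.im := by
      simp [hω, Complex.mul_re]
    rw [h1, ht0, div_mul_cancel₀ _ hμim]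
    have := neg_abs_le μ.re
    linarith
  -- small ball
  have hev1 : ∀ᶠ s in 𝓝 s₁, (ω * m s).re < -1 / 2 := by
    have hc : ContinuousAt (fun s => (ω * m s).re) s₁ :=
      Complex.continuous_re.continuousAt.comp (continuousAt_const.mul hmc)
    have : (ω * m s₁).re < -1 / 2 := by rw [hms]; linarith
    exact hc.eventually (Iio_mem_nhds this)
  have hev2 : ∀ᶠ s in 𝓝 s₁, ‖ω * ρ s‖ < ‖ω * ρ s₁‖ + 1 := by
    have hc : ContinuousAt (fun s => ‖ω * ρ s‖) s₁ := (continuousAt_const.mul hρc).norm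
    exact hc.eventually (Iio_mem_nhds (by linarith))
  have hev3 : ∀ᶠ s in 𝓝 s₁, q.eval s ≠ 0 :=
    q.continuous.continuousAt.eventually_ne hqne
  obtain ⟨δ, hδ, hball⟩ := Metric.eventually_nhds_iff.1 (hev1.and (hev2.and hev3))
  set C : ℝ := ‖ω * ρ s₁‖ + 1 with hC
  have hCpos : 0 < C := by positivity
  set δ' : ℝ := δ / 2 with hδ'
  have hδ'pos : 0 < δ' := by positivity
  -- the sphere
  have hOm : ∀ s, 0 < ‖s - s₁‖ → ‖s - s₁‖ ≤ δ' → s ∈ I.Om := by
    intro s h0 h1
    have h2 := hball (y := s) (by rw [dist_eq_norm]; linarith)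
    show b0.eval s ≠ 0
    rw [hq, Polynomial.eval_mul]
    refine mul_ne_zero ?_ h2.2.2
    simp only [Polynomial.eval_sub, Polynomial.eval_X, Polynomial.eval_C]
    exact norm_pos_iff.1 h0
  have hopen : IsOpen I.Om := by
    have : I.Om = (fun s => (I.b 0).eval s) ⁻¹' {0}ᶜ := rfl
    rw [this]
    exact isOpen_compl_singleton.preimage (I.b 0).continuous
  have hsphere : ∃ M : ℝ, ∀ s ∈ sphere s₁ δ', ‖φ s‖ ≤ M := by
    apply (isCompact_sphere s₁ δ').exists_bound_of_continuousOn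
    intro s hs
    rw [mem_sphere, dist_eq_norm] at hs
    have : s ∈ I.Om := hOm s (by rw [hs]; exact hδ'pos) hs.le
    exact ((hφ s this).differentiableAt (hopen.mem_nhds this)).continuousAt.continuousWithinAt
  obtain ⟨M, hM⟩ := hsphere
  refine ⟨δ', hδ'pos, Real.sqrt (M ^ 2 + 4 * C ^ 2), ?_⟩
  intro s h0 h1
  set T : ℝ := Real.log (δ' / ‖s - s₁‖) with hTdef
  have hTexp : Real.exp T = δ' / ‖s - s₁‖ := Real.exp_log (by positivity)
  have hT : 0 ≤ T := Real.log_nonneg (by rw [le_div_iff₀ h0]; linarith)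
  set σ : ℂ := (s - s₁) * Complex.exp (-(ω * T)) with hσ
  have hσn : ‖σ‖ = δ' := by
    rw [hσ, norm_mul, Complex.norm_exp]
    have : (-(ω * T)).re = T := by
      simp [Complex.mul_re, hωre]
    rw [this, hTexp]
    field_simp
  set z : ℝ → ℂ := fun t => s₁ + σ * Complex.exp (ω * t) with hz
  have hz0 : z 0 = s₁ + σ := by simp [hz]
  have hzT : z T = s := by
    simp only [hz, hσ]
    rw [mul_assoc, ← Complex.exp_add]
    simp
  have hznorm : ∀ t : ℝ, ‖z t - s₁‖ = δ' * Real.exp (-t) := by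
    intro t
    simp only [hz, add_sub_cancel_left]
    rw [norm_mul, Complex.norm_exp, hσn]
    congr 2
    simp [Complex.mul_re, hωre]
  have hzOm : ∀ t ∈ Icc (0 : ℝ) T, z t ∈ I.Om ∧ dist (z t) s₁ < δ := by
    intro t ht
    have h2 := hznorm t
    have h3 : Real.exp (-t) ≤ 1 := Real.exp_le_one_iff.2 (by linarith [ht.1])
    have h4 : 0 < Real.exp (-t) := Real.exp_pos _
    have h5 : ‖z t - s₁‖ ≤ δ' := by rw [h2]; nlinarith
    refine ⟨hOm _ (by rw [h2]; positivity) h5, ?_⟩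
    rw [dist_eq_norm]; linarith
  have hzd : ∀ t : ℝ, HasDerivAt z (ω * (z t - s₁)) t := by
    intro t
    have h1 : HasDerivAt (fun t : ℝ => (ω * (t : ℂ))) ω t := by
      have := (Complex.ofRealCLM.hasDerivAt (x := t)).const_mul ω
      simpa using this
    have h2 := (h1.cexp.const_mul σ).const_add s₁
    refine h2.congr_deriv ?_
    simp only [hz, add_sub_cancel_left]
    ring
  have hfd : ∀ t ∈ Icc (0 : ℝ) T,
      HasDerivAt (fun t => φ (z t)) (ω * (m (z t) * φ (z t) + ρ (z t))) t := by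
    intro t ht
    obtain ⟨hin, hdist⟩ := hzOm t ht
    have hdφ : HasDerivAt φ (deriv φ (z t)) (z t) :=
      ((hφ _ hin).differentiableAt (hopen.mem_nhds hin)).hasDerivAt
    have h1 := hdφ.comp_of_eq t (hzd t) rfl
    have h1' : HasDerivAt (fun t => φ (z t)) (deriv φ (z t) * (ω * (z t - s₁))) t := h1
    refine h1'.congr_deriv ?_
    have he := heq _ hin
    have hqz : q.eval (z t) ≠ 0 := (hball hdist).2.2
    have hbz : b0.eval (z t) = (z t - s₁) * q.eval (z t) := by
      conv_lhs => rw [hq]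
      simp
    simp only [hm, hρ, hN, Polynomial.eval_sub, Polynomial.eval_mul, Polynomial.eval_C]
    rw [hbz] at he
    field_simp
    linear_combination ω * he
  have hkey := sq_bound (f := fun t => φ (z t)) (C := C) hT hfd (by
    intro t ht
    obtain ⟨hin, hdist⟩ := hzOm t ht
    obtain ⟨g1, g2, g3⟩ := hball hdist
    have h1 : (starRingEnd ℂ (φ (z t))) * (ω * (m (z t) * φ (z t) + ρ (z t)))
        = (ω * m (z t)) * ((‖φ (z t)‖ ^ 2 : ℝ) : ℂ) + (starRingEnd ℂ (φ (z t))) * (ω * ρ (z t)) := by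
      have h2 : (starRingEnd ℂ (φ (z t))) * φ (z t) = ((‖φ (z t)‖ ^ 2 : ℝ) : ℂ) := by
        rw [mul_comm, Complex.mul_conj, Complex.normSq_eq_norm_sq]
      rw [← h2]; ring
    show ((starRingEnd ℂ (φ (z t))) * (ω * (m (z t) * φ (z t) + ρ (z t)))).re ≤ _
    rw [h1, Complex.add_re, Complex.re_mul_ofReal]
    have h3 : ((starRingEnd ℂ (φ (z t))) * (ω * ρ (z t))).re ≤ C * ‖φ (z t)‖ := by
      refine (Complex.re_le_norm _).trans ?_
      rw [norm_mul, RCLike.norm_conj, mul_comm]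
      exact mul_le_mul_of_nonneg_right g2.le (norm_nonneg _)
    have h4 : (ω * m (z t)).re * ‖φ (z t)‖ ^ 2 ≤ -(1 / 2) * ‖φ (z t)‖ ^ 2 :=
      mul_le_mul_of_nonneg_right (by linarith) (sq_nonneg _)
    linarith)
  simp only [hzT] at hkey
  have hM0 : ‖φ (z 0)‖ ≤ M := by
    apply hM
    rw [mem_sphere, dist_eq_norm, hz0]
    simpa using hσn
  apply Real.le_sqrt_of_sq_le
  have : ‖φ (z 0)‖ ^ 2 ≤ M ^ 2 := by
    apply pow_le_pow_left₀ (norm_nonneg _) hM0
  linarith

end Pool.GL.H63
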