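import Pool.Agent.Helper99.GL.FSpec

/-!
Swarm `GL`, part F16b : growth at infinity.
-/

set_option autoImplicit false

open Metric Set Filter Topology

namespace Pool.GL.H63

/-- upper bound of a polynomial -/
theorem poly_upper (p : Polynomial ℂ) (n : ℕ) (hp : p.natDegree ≤ n) :
    ∃ C : ℝ, 0 ≤ C ∧ ∀ s : ℂ, 1 ≤ ‖s‖ → ‖p.eval s‖ ≤ C * ‖s‖ ^ n := by
  refine ⟨∑ i ∈ Finset.range (n + 1), ‖p.coeff i‖,
    Finset.sum_nonneg fun _ _ => norm_nonneg _, ?_⟩
  intro s hs
  rw [Polynomial.eval_eq_sum_range' (Nat.lt_succ_of_le hp)]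
  refine (norm_sum_le _ _).trans ?_
  rw [Finset.sum_mul]
  apply Finset.sum_le_sum
  intro i hi
  rw [norm_mul, norm_pow]
  apply mul_le_mul_of_nonneg_left _ (norm_nonneg _)
  exact pow_le_pow_right₀ hs (Nat.lt_succ_iff.1 (Finset.mem_range.1 hi))

/-- lower bound of a polynomial -/
theorem poly_lower (p : Polynomial ℂ) (n : ℕ) (hp : p.natDegree ≤ n + 1)
    (hl : p.coeff (n + 1) ≠ 0) :
    ∃ R c : ℝ, 1 ≤ R ∧ 0 < c ∧ ∀ s : ℂ, R ≤ ‖s‖ → c * ‖s‖ ^ (n + 1) ≤ ‖p.eval s‖ := by
  set ℓ := p.coeff (n + 1) with hℓ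
  have hℓ0 : 0 < ‖ℓ‖ := norm_pos_iff.2 hl
  set q : Polynomial ℂ := p - Polynomial.C ℓ * Polynomial.X ^ (n + 1) with hq
  have hqd : q.natDegree ≤ n := by
    rw [Polynomial.natDegree_le_iff_coeff_eq_zero]
    intro N hN
    rw [hq, Polynomial.coeff_sub, Polynomial.coeff_C_mul, Polynomial.coeff_X_pow]
    by_cases h : N = n + 1
    · rw [if_pos h, h, ← hℓ]; ring
    · rw [if_neg h, Polynomial.coeff_eq_zero_of_natDegree_lt (by omega)]; ring
  obtain ⟨C, hC0, hC⟩ := poly_upper q n hqd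
  refine ⟨max 1 (2 * C / ‖ℓ‖), ‖ℓ‖ / 2, le_max_left _ _, by positivity, ?_⟩
  intro s hs
  have hs1 : 1 ≤ ‖s‖ := (le_max_left _ _).trans hs
  have hs2 : 2 * C / ‖ℓ‖ ≤ ‖s‖ := (le_max_right _ _).trans hs
  have h1 := hC s hs1
  have h2 : p.eval s = ℓ * s ^ (n + 1) + q.eval s := by
    rw [hq]; simp
  have h3 : ‖ℓ * s ^ (n + 1)‖ ≤ ‖p.eval s‖ + ‖q.eval s‖ := by
    have : ℓ * s ^ (n + 1) = p.eval s - q.eval s := by rw [h2]; ring
    rw [this]; exact norm_sub_le _ _
  rw [norm_mul, norm_pow] at h3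
  rw [div_le_iff₀ hℓ0] at hs2
  have h4 : 0 ≤ ‖s‖ ^ n := by positivity
  have h5 : C * ‖s‖ ^ n ≤ (‖ℓ‖ / 2) * ‖s‖ ^ (n + 1) := by
    rw [pow_succ]
    nlinarith
  nlinarith

theorem growb_thm : S_GROWB := by
  intro I hI k hk r φ hr hφ heq
  set b0 := I.b 0 with hb0
  set a0 := I.a 0 with ha0
  have hda : a0.natDegree ≤ I.d := by simpa using hI.dega 0 (Nat.zero_le _)
  have hdb : b0.natDegree ≤ I.d + 1 := by simpa using hI.degb 0 (Nat.zero_le _)
  have hlead : b0.coeff (I.d + 1) ≠ 0 := hI.lead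
  have hleq : a0.coeff I.d = b0.coeff (I.d + 1) := hI.leadeq
  obtain ⟨R0, c, hR0, hc, hlow⟩ := poly_lower b0 I.d hdb hlead
  -- q
  set q : Polynomial ℂ := Polynomial.X * (Polynomial.derivative b0 - Polynomial.C (k : ℂ) * a0)
    - Polynomial.C ((I.d : ℂ) + 1 - k) * b0 with hq
  have hqd : q.natDegree ≤ I.d := by
    rw [Polynomial.natDegree_le_iff_coeff_eq_zero]
    intro N hN
    obtain ⟨M, rfl⟩ : ∃ M, N = M + 1 := ⟨N - 1, by omega⟩
    rw [hq, Polynomial.coeff_sub, Polynomial.coeff_X_mul, Polynomial.coeff_sub,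
      Polynomial.coeff_C_mul, Polynomial.coeff_C_mul, Polynomial.coeff_derivative]
    by_cases h : M = I.d
    · subst h
      rw [hleq]; ring
    · rw [Polynomial.coeff_eq_zero_of_natDegree_lt (p := b0) (by omega),
        Polynomial.coeff_eq_zero_of_natDegree_lt (p := a0) (by omega)]
      ring
  obtain ⟨C1, hC10, hC1⟩ := poly_upper q I.d hqd
  -- bound of r
  obtain ⟨C2, hC20, hC2⟩ : ∃ C2 : ℝ, 0 ≤ C2 ∧ ∀ s : ℂ, 1 ≤ ‖s‖ →
      ‖r.eval s‖ * ‖s‖ ^ k ≤ C2 * ‖s‖ ^ (2 * I.d + 1) := by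
    rcases hr with hr | hr
    · exact ⟨0, le_rfl, fun s _ => by rw [hr]; simp⟩
    · obtain ⟨C, hC0, hC⟩ := poly_upper r (2 * I.d + 1 - k) (by omega)
      refine ⟨C, hC0, fun s hs => ?_⟩
      have h1 := hC s hs
      have h2 : ‖s‖ ^ (2 * I.d + 1) = ‖s‖ ^ (2 * I.d + 1 - k) * ‖s‖ ^ k := by
        rw [← pow_add]; congr 1; omega
      rw [h2, ← mul_assoc]
      exact mul_le_mul_of_nonneg_right h1 (by positivity)
  have hopen : IsOpen I.Om := by
    have : I.Om = (fun s => (I.b 0).eval s) ⁻¹' {0}ᶜ := rfl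
    rw [this]
    exact isOpen_compl_singleton.preimage (I.b 0).continuous
  have hOm : ∀ s : ℂ, R0 ≤ ‖s‖ → s ∈ I.Om := by
    intro s hs
    have h1 := hlow s hs
    have h2 : 0 < ‖s‖ := by linarith
    show b0.eval s ≠ 0
    rw [← norm_pos_iff]
    have : 0 < c * ‖s‖ ^ (I.d + 1) := by positivity
    linarith
  obtain ⟨M', hM'⟩ : ∃ M : ℝ, ∀ s ∈ sphere (0 : ℂ) R0, ‖φ s‖ ≤ M := by
    apply (isCompact_sphere (0 : ℂ) R0).exists_bound_of_continuousOn
    intro s hs
    rw [mem_sphere, dist_zero_right] at hs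
    have : s ∈ I.Om := hOm s hs.ge
    exact ((hφ s this).differentiableAt (hopen.mem_nhds this)).continuousAt.continuousWithinAt
  -- constants
  set C : ℝ := C1 / c + C2 / c with hC
  have hC0 : 0 ≤ C := by positivity
  set x0 : ℝ := Real.log R0 with hx0
  have hx0n : 0 ≤ x0 := Real.log_nonneg hR0
  have hexpx0 : Real.exp x0 = R0 := Real.exp_log (by linarith)
  set M : ℝ := |M'| * (R0 ^ k / R0 ^ (I.d + 1)) * Real.exp C with hM
  have hM0 : 0 ≤ M := by positivity
  set C' : ℝ := (C + 1) * Real.exp C with hC'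
  have hC'0 : 0 ≤ C' := by positivity
  refine ⟨R0, max M C', hR0, ?_⟩
  intro s hs
  have hs0 : 0 < ‖s‖ := by linarith
  set σ : ℂ := s / (‖s‖ : ℂ) with hσ
  have hσn : ‖σ‖ = 1 := by
    rw [hσ, norm_div, Complex.norm_real, norm_norm, div_self hs0.ne']
  set e : ℂ := (k : ℂ) - ((I.d : ℂ) + 1) with he
  set er : ℝ := (k : ℝ) - ((I.d : ℝ) + 1) with her
  set z : ℝ → ℂ := fun x => σ * Complex.exp (x : ℂ) with hz
  have hzn : ∀ x : ℝ, ‖z x‖ = Real.exp x := by
    intro x
    simp only [hz]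
    rw [norm_mul, hσn, Complex.norm_exp, one_mul, Complex.ofReal_re]
  have hzd : ∀ x : ℝ, HasDerivAt z (z x) x := by
    intro x
    have h1 : HasDerivAt (fun t : ℝ => ((t : ℂ))) 1 x := Complex.ofRealCLM.hasDerivAt
    have h2 := (h1.cexp.const_mul σ)
    refine h2.congr_deriv ?_
    simp only [hz]; ring
  set f : ℝ → ℂ := fun x => φ (z x) * Complex.exp (e * (x : ℂ)) with hf
  set f' : ℝ → ℂ := fun x => (q.eval (z x) / b0.eval (z x)) * f x
    + (z x * r.eval (z x) / b0.eval (z x)) * Complex.exp (e * (x : ℂ)) with hf'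
  have hzOm : ∀ x : ℝ, x0 ≤ x → z x ∈ I.Om := by
    intro x hx
    apply hOm
    rw [hzn, ← hexpx0]
    exact Real.exp_le_exp.2 hx
  have hfd : ∀ x : ℝ, x0 ≤ x → HasDerivAt f (f' x) x := by
    intro x hx
    have hin := hzOm x hx
    have hdφ : HasDerivAt φ (deriv φ (z x)) (z x) :=
      ((hφ _ hin).differentiableAt (hopen.mem_nhds hin)).hasDerivAt
    have h1 : HasDerivAt (fun t => φ (z t)) (deriv φ (z x) * z x) x :=
      hdφ.comp_of_eq x (hzd x) rfl
    have h2 : HasDerivAt (fun t : ℝ => Complex.exp (e * (t : ℂ)))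
        (Complex.exp (e * (x : ℂ)) * e) x := by
      have h3 : HasDerivAt (fun t : ℝ => (e * (t : ℂ))) e x := by
        have := (Complex.ofRealCLM.hasDerivAt (x := x)).const_mul e
        simpa using this
      exact h3.cexp
    refine (h1.mul h2).congr_deriv ?_
    have hh := heq _ hin
    have hb : b0.eval (z x) ≠ 0 := hin
    simp only [hf', hf, hq, Polynomial.eval_sub, Polynomial.eval_mul, Polynomial.eval_C,
      Polynomial.eval_X]
    rw [← hh, he]
    field_simp
    ring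
  have hexpe : ∀ x : ℝ, ‖Complex.exp (e * (x : ℂ))‖ * Real.exp x ^ (I.d + 1) = Real.exp x ^ k := by
    intro x
    rw [Complex.norm_exp]
    have h1 : (e * (x : ℂ)).re = er * x := by
      simp [he, her, Complex.mul_re]
    rw [h1, ← Real.exp_nat_mul, ← Real.exp_nat_mul, ← Real.exp_add]
    congr 1
    rw [her]; push_cast; ring
  have hf'b : ∀ x : ℝ, x0 ≤ x → ‖f' x‖ ≤ C * Real.exp (-x) * ‖f x‖ + C := by
    intro x hx
    have hR : R0 ≤ ‖z x‖ := by rw [hzn, ← hexpx0]; exact Real.exp_le_exp.2 hx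
    have hR1 : 1 ≤ ‖z x‖ := hR0.trans hR
    have hzp : 0 < ‖z x‖ := by linarith
    have hl := hlow _ hR
    have hlp : 0 < c * ‖z x‖ ^ (I.d + 1) := by positivity
    have hbp : 0 < ‖b0.eval (z x)‖ := by linarith
    have h1 : ‖q.eval (z x) / b0.eval (z x)‖ ≤ C1 / c * Real.exp (-x) := by
      rw [norm_div, div_le_iff₀ hbp]
      refine (hC1 _ hR1).trans ?_
      have h2 : C1 * ‖z x‖ ^ I.d = C1 / c * Real.exp (-x) * (c * ‖z x‖ ^ (I.d + 1)) := by
        rw [hzn, pow_succ, Real.exp_neg]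
        field_simp
      rw [h2]
      exact mul_le_mul_of_nonneg_left hl (by positivity)
    have h3 : ‖(z x * r.eval (z x) / b0.eval (z x)) * Complex.exp (e * (x : ℂ))‖ ≤ C2 / c := by
      rw [norm_mul, norm_div, norm_mul, div_mul_eq_mul_div, div_le_iff₀ hbp]
      have h4 : C2 / c * (c * ‖z x‖ ^ (I.d + 1)) ≤ C2 / c * ‖b0.eval (z x)‖ :=
        mul_le_mul_of_nonneg_left hl (by positivity)
      refine le_trans ?_ h4
      have h5 : C2 / c * (c * ‖z x‖ ^ (I.d + 1)) = C2 * ‖z x‖ ^ (I.d + 1) := by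
        field_simp
      rw [h5]
      have h6 := hC2 _ hR1
      have h7 := hexpe x
      rw [← hzn x] at h7
      have hpd : 0 < ‖z x‖ ^ (I.d + 1) := by positivity
      have h8 : ‖Complex.exp (e * (x : ℂ))‖ = ‖z x‖ ^ k / ‖z x‖ ^ (I.d + 1) := by
        rw [eq_div_iff hpd.ne', h7]
      rw [h8]
      have h9 : ‖z x‖ * ‖r.eval (z x)‖ * (‖z x‖ ^ k / ‖z x‖ ^ (I.d + 1))
          = (‖r.eval (z x)‖ * ‖z x‖ ^ k) / ‖z x‖ ^ I.d := by
        rw [pow_succ]; field_simp
      rw [h9, div_le_iff₀ (by positivity)]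
      refine h6.trans (le_of_eq ?_)
      rw [mul_assoc, ← pow_add]
      congr 2; omega
    have h10 : ‖f' x‖ ≤ C1 / c * Real.exp (-x) * ‖f x‖ + C2 / c := by
      simp only [hf']
      refine (norm_add_le _ _).trans (add_le_add ?_ h3)
      rw [norm_mul]
      exact mul_le_mul_of_nonneg_right h1 (norm_nonneg _)
    have h11 : C1 / c * Real.exp (-x) * ‖f x‖ ≤ C * Real.exp (-x) * ‖f x‖ := by
      apply mul_le_mul_of_nonneg_right _ (norm_nonneg _)
      apply mul_le_mul_of_nonneg_right _ (Real.exp_pos _).le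
      rw [hC]
      have : 0 ≤ C2 / c := by positivity
      linarith
    have h12 : C2 / c ≤ C := by
      rw [hC]
      have : 0 ≤ C1 / c := by positivity
      linarith
    linarith
  set B : ℝ → ℝ := fun x => (M + C' * x) * Real.exp (-(C * Real.exp (-x))) with hB
  set B' : ℝ → ℝ := fun x => C' * Real.exp (-(C * Real.exp (-x))) + C * Real.exp (-x) * B x with hB'
  have hBd : ∀ x : ℝ, HasDerivAt B (B' x) x := by
    intro x
    have h1 : HasDerivAt (fun x : ℝ => M + C' * x) C' x := by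
      have := ((hasDerivAt_id x).const_mul C').const_add M
      simpa using this
    have h2 : HasDerivAt (fun x : ℝ => Real.exp (-(C * Real.exp (-x))))
        (Real.exp (-(C * Real.exp (-x))) * (C * Real.exp (-x))) x := by
      have h3 : HasDerivAt (fun x : ℝ => Real.exp (-x)) (Real.exp (-x) * (-1)) x :=
        (hasDerivAt_neg x).exp
      have h4 : HasDerivAt (fun x : ℝ => -(C * Real.exp (-x))) (C * Real.exp (-x)) x :=
        ((h3.const_mul C).neg).congr_deriv (by ring)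
      exact h4.exp
    refine (h1.mul h2).congr_deriv ?_
    simp only [hB', hB]
    ring
  set X : ℝ := Real.log ‖s‖ with hX
  have hX0 : x0 ≤ X := Real.log_le_log (by linarith) hs.le
  have hX00 : 0 ≤ X := hx0n.trans hX0
  have hmain : ‖f X‖ ≤ B X := by
    refine image_norm_le_of_norm_deriv_right_lt_deriv_boundary' (f := f) (f' := f') (a := x0)
      (b := X) (B := B) (B' := B') ?_ ?_ ?_ ?_ ?_ ?_ (right_mem_Icc.2 hX0)
    · intro x hx
      exact (hfd x hx.1).continuousAt.continuousWithinAt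
    · intro x hx
      exact (hfd x hx.1).hasDerivWithinAt
    · -- initial
      have h1 : ‖f x0‖ ≤ |M'| * (R0 ^ k / R0 ^ (I.d + 1)) := by
        simp only [hf]
        rw [norm_mul]
        have h2 := hexpe x0
        rw [hexpx0] at h2
        have hRp : 0 < R0 := by linarith
        have h3 : ‖Complex.exp (e * (x0 : ℂ))‖ = R0 ^ k / R0 ^ (I.d + 1) := by
          rw [eq_div_iff (by positivity), h2]
        rw [h3]
        apply mul_le_mul_of_nonneg_right _ (by positivity)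
        refine (hM' _ ?_).trans (le_abs_self _)
        rw [mem_sphere, dist_zero_right, hzn, hexpx0]
      refine h1.trans ?_
      simp only [hB]
      have h4 : Real.exp (-C) ≤ Real.exp (-(C * Real.exp (-x0))) := by
        apply Real.exp_le_exp.2
        have : Real.exp (-x0) ≤ 1 := Real.exp_le_one_iff.2 (by linarith)
        nlinarith
      have h5 : |M'| * (R0 ^ k / R0 ^ (I.d + 1)) = M * Real.exp (-C) := by
        rw [hM, mul_assoc, ← Real.exp_add]; simp
      rw [h5]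
      calc M * Real.exp (-C) ≤ M * Real.exp (-(C * Real.exp (-x0))) :=
            mul_le_mul_of_nonneg_left h4 hM0
        _ ≤ (M + C' * x0) * Real.exp (-(C * Real.exp (-x0))) := by
            apply mul_le_mul_of_nonneg_right _ (Real.exp_pos _).le
            have : 0 ≤ C' * x0 := by positivity
            linarith
    · intro x hx
      exact (hBd x).continuousAt.continuousWithinAt
    · intro x hx
      exact (hBd x).hasDerivWithinAt
    · intro x hx hfx
      have hx1 : x0 ≤ x := hx.1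
      have h1 := hf'b x hx1
      rw [hfx] at h1
      refine lt_of_le_of_lt h1 ?_
      simp only [hB']
      have h4 : Real.exp (-C) ≤ Real.exp (-(C * Real.exp (-x))) := by
        apply Real.exp_le_exp.2
        have : Real.exp (-x) ≤ 1 := Real.exp_le_one_iff.2 (by linarith)
        nlinarith
      have h5 : C + 1 ≤ C' * Real.exp (-(C * Real.exp (-x))) := by
        calc C + 1 = C' * Real.exp (-C) := by
              rw [hC', mul_assoc, ← Real.exp_add]; simp
          _ ≤ _ := mul_le_mul_of_nonneg_left h4 hC'0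
      linarith
  have hzX : z X = s := by
    simp only [hz, hσ, hX]
    rw [← Complex.ofReal_exp, Real.exp_log hs0]
    rw [div_mul_cancel₀]
    exact_mod_cast hs0.ne'
  have hfX : ‖f X‖ * ‖s‖ ^ (I.d + 1) = ‖φ s‖ * ‖s‖ ^ k := by
    simp only [hf]
    rw [norm_mul, hzX, mul_assoc]
    have h2 := hexpe X
    rw [hX, Real.exp_log hs0] at h2
    rw [← hX] at h2
    rw [h2]
  rw [← hfX]
  have hBX : B X ≤ max M C' * (1 + Real.log ‖s‖) := by
    simp only [hB]
    rw [← hX]
    have h1 : Real.exp (-(C * Real.exp (-X))) ≤ 1 := by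
      apply Real.exp_le_one_iff.2
      have : 0 ≤ C * Real.exp (-X) := by positivity
      linarith
    have h2 : 0 ≤ M + C' * X := by positivity
    calc (M + C' * X) * Real.exp (-(C * Real.exp (-X))) ≤ (M + C' * X) * 1 :=
          mul_le_mul_of_nonneg_left h1 h2
      _ ≤ max M C' * (1 + X) := by
          nlinarith [le_max_left M C', le_max_right M C']
  have hp : 0 ≤ ‖s‖ ^ (I.d + 1) := by positivity
  calc ‖f X‖ * ‖s‖ ^ (I.d + 1) ≤ (max M C' * (1 + Real.log ‖s‖)) * ‖s‖ ^ (I.d + 1) :=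
        mul_le_mul_of_nonneg_right (hmain.trans hBX) hp
    _ = _ := by ring

end Pool.GL.H63
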