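import Pool.Agent.Helper99.GL.FSpec

/-!
Swarm `GL`, part F16c : one linear equation has polynomial solutions.
-/

set_option autoImplicit false

open Metric Set Filter Topology

namespace Pool.GL.H63

/-- an entire function with `‖ψ s‖‖s‖^k ≤ C ‖s‖^D (1+log‖s‖)` is a polynomial -/
theorem entire_poly (ψ : ℂ → ℂ) (hψ : Differentiable ℂ ψ) (k D : ℕ) (R C : ℝ) (hR : 1 ≤ R)
    (h : ∀ s : ℂ, R < ‖s‖ → ‖ψ s‖ * ‖s‖ ^ k ≤ C * ‖s‖ ^ D * (1 + Real.log ‖s‖)) :
    ∃ p : Polynomial ℂ, (∀ s, ψ s = p.eval s) ∧ (k ≤ D → p.natDegree ≤ D - k) ∧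
      (D < k → p = 0) := by
  have hzero : ∀ n : ℕ, D + 1 ≤ n + k → iteratedDeriv n ψ 0 = 0 := by
    intro n hn
    -- bound
    have hb : ∀ ρ : ℝ, R < ρ → ‖iteratedDeriv n ψ 0‖ ≤
        (n.factorial * |C|) * ((1 + Real.log ρ) / ρ) := by
      intro ρ hρ
      have hρ0 : 0 < ρ := by linarith
      have hρ1 : 1 ≤ ρ := by linarith
      have hlog : 0 ≤ Real.log ρ := Real.log_nonneg hρ1
      have h1 := Complex.norm_iteratedDeriv_le_of_forall_mem_sphere_norm_le (c := (0 : ℂ)) (R := ρ)
        (C := |C| * ρ ^ D * (1 + Real.log ρ) / ρ ^ k) (f := ψ) n hρ0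
        (hψ.diffContOnCl) (by
          intro z hz
          rw [mem_sphere, dist_zero_right] at hz
          rw [le_div_iff₀ (by positivity)]
          have := h z (by rw [hz]; exact hρ)
          rw [hz] at this
          refine this.trans ?_
          apply mul_le_mul_of_nonneg_right _ (by linarith)
          exact mul_le_mul_of_nonneg_right (le_abs_self _) (by positivity))
      refine h1.trans ?_
      obtain ⟨j, hj⟩ : ∃ j, n + k = D + 1 + j := ⟨n + k - (D + 1), by omega⟩
      have h2 : n.factorial * (|C| * ρ ^ D * (1 + Real.log ρ) / ρ ^ k) / ρ ^ n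
          = (n.factorial * |C|) * ((1 + Real.log ρ) / ρ) / ρ ^ j := by
        have h3 : ρ ^ k * ρ ^ n = ρ ^ D * ρ * ρ ^ j := by
          rw [← pow_add, ← pow_succ, ← pow_add]; congr 1; omega
        have h4 : n.factorial * (|C| * ρ ^ D * (1 + Real.log ρ) / ρ ^ k) / ρ ^ n
          = n.factorial * (|C| * ρ ^ D * (1 + Real.log ρ)) / (ρ ^ k * ρ ^ n) := by
          field_simp
        rw [h4, h3]
        field_simp
      rw [h2]
      apply div_le_self
      · positivity
      · exact one_le_pow₀ hρ1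
    have hlim : Tendsto (fun ρ : ℝ => (n.factorial * |C|) * ((1 + Real.log ρ) / ρ)) atTop
        (𝓝 0) := by
      have h1 : Tendsto (fun ρ : ℝ => Real.log ρ / ρ) atTop (𝓝 0) := by
        have := Real.isLittleO_log_id_atTop.tendsto_div_nhds_zero
        simpa using this
      have h2 : Tendsto (fun ρ : ℝ => 1 / ρ) atTop (𝓝 0) := by
        simpa using tendsto_inv_atTop_zero (𝕜 := ℝ)
      have h3 := (h2.add h1).const_mul ((n.factorial : ℝ) * |C|)
      simp only [add_zero, mul_zero] at h3
      refine h3.congr ?_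
      intro ρ
      ring
    have h0 : ‖iteratedDeriv n ψ 0‖ ≤ 0 := by
      refine ge_of_tendsto hlim ?_
      filter_upwards [eventually_gt_atTop R] with ρ hρ
      exact hb ρ hρ
    exact norm_le_zero_iff.1 h0
  set p : Polynomial ℂ := ∑ n ∈ Finset.range (D + 1 - k),
    Polynomial.C ((n.factorial : ℂ)⁻¹ * iteratedDeriv n ψ 0) * Polynomial.X ^ n with hp
  refine ⟨p, ?_, ?_, ?_⟩
  · intro s
    have h1 := Complex.taylorSeries_eq_of_entire' (f := ψ) (c := 0) (z := s) hψ
    rw [← h1, tsum_eq_sum (s := Finset.range (D + 1 - k))]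
    · rw [hp, Polynomial.eval_finsetSum]
      apply Finset.sum_congr rfl
      intro n _
      simp
    · intro n hn
      rw [Finset.mem_range, not_lt] at hn
      rw [hzero n (by omega)]
      simp
  · intro hkD
    rw [hp]
    apply Polynomial.natDegree_sum_le_of_forall_le
    intro n hn
    rw [Finset.mem_range] at hn
    exact (Polynomial.natDegree_C_mul_X_pow_le _ _).trans (by omega)
  · intro hDk
    rw [hp]
    have : D + 1 - k = 0 := by omega
    rw [this]; simp

/-- removable singularities at finitely many points -/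
theorem removable (b : Polynomial ℂ) (hb : b ≠ 0) (φ : ℂ → ℂ)
    (hφ : DifferentiableOn ℂ φ {s | b.eval s ≠ 0})
    (hbd : ∀ s₁, b.eval s₁ = 0 → ∃ δ > 0, ∃ C : ℝ, ∀ s, 0 < ‖s - s₁‖ → ‖s - s₁‖ < δ →
      ‖φ s‖ ≤ C) :
    ∃ ψ : ℂ → ℂ, Differentiable ℂ ψ ∧ ∀ s, b.eval s ≠ 0 → ψ s = φ s := by
  classical
  have hopen : IsOpen {s | b.eval s ≠ 0} :=
    isOpen_compl_singleton.preimage b.continuous
  refine ⟨fun s => if b.eval s ≠ 0 then φ s else limUnder (𝓝[≠] s) φ, ?_, ?_⟩
  · intro c
    by_cases hc : b.eval c ≠ 0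
    · have h1 : DifferentiableAt ℂ φ c := (hφ c hc).differentiableAt (hopen.mem_nhds hc)
      refine h1.congr_of_eventuallyEq ?_
      filter_upwards [hopen.mem_nhds hc] with s hs
      exact if_pos hs
    · push Not at hc
      obtain ⟨δ, hδ, C, hC⟩ := hbd c hc
      -- the other roots are isolated
      have hfin : (b.roots.toFinset : Set ℂ).Finite := Finset.finite_toSet _
      have hev : ∀ᶠ s in 𝓝[≠] c, b.eval s ≠ 0 := by
        have h2 : ((b.roots.toFinset : Set ℂ) \ {c})ᶜ ∈ 𝓝 c :=
          (hfin.subset sdiff_subset).isClosed.isOpen_compl.mem_nhds (by simp)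
        rw [eventually_nhdsWithin_iff]
        filter_upwards [h2] with s hs hsc h0
        apply hs
        refine ⟨?_, hsc⟩
        simp only [Finset.mem_coe, Multiset.mem_toFinset]
        rw [Polynomial.mem_roots hb]
        exact h0
      rw [eventually_nhdsWithin_iff, Metric.eventually_nhds_iff] at hev
      obtain ⟨ε, hε, hball⟩ := hev
      set r := min δ ε with hr
      have hrpos : 0 < r := lt_min hδ hε
      have hnb : ball c r ∈ 𝓝 c := ball_mem_nhds c hrpos
      have hin : ∀ s ∈ ball c r \ {c}, b.eval s ≠ 0 := by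
        intro s hs
        exact hball (lt_of_lt_of_le (mem_ball.1 hs.1) (min_le_right _ _)) hs.2
      have h1 := Complex.differentiableOn_update_limUnder_of_bddAbove (f := φ) hnb
        (fun s hs => ((hφ s (hin s hs)).differentiableAt
          (hopen.mem_nhds (hin s hs))).differentiableWithinAt) (by
          refine ⟨C, ?_⟩
          rintro _ ⟨s, hs, rfl⟩
          refine hC s ?_ ?_
          · rw [norm_pos_iff, sub_ne_zero]
            exact hs.2
          · rw [← dist_eq_norm]
            exact lt_of_lt_of_le (mem_ball.1 hs.1) (min_le_left _ _))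
      have h2 := (h1 c (mem_ball_self hrpos)).differentiableAt hnb
      refine h2.congr_of_eventuallyEq ?_
      filter_upwards [hnb] with s hs
      by_cases hsc : s = c
      · subst hsc
        simp [hc]
      · rw [Function.update_of_ne hsc]
        exact if_pos (hin s ⟨hs, hsc⟩)
  · intro s hs
    exact if_pos hs

theorem odec_thm (hR : S_ROOTB) (hG : S_GROWB) : S_ODEC := by
  intro I hI k hk r φ hr hφ heq
  have hb : I.b 0 ≠ 0 := by
    intro h
    exact hI.lead (by rw [h]; simp)
  obtain ⟨ψ, hψ, hψφ⟩ := removable (I.b 0) hb φ hφ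
    (fun s₁ hs₁ => hR I hI k hk r φ hφ heq s₁ hs₁)
  obtain ⟨R, C, hR1, hRC⟩ := hG I hI k hk r φ hr hφ heq
  -- outside a large disc b 0 ≠ 0
  obtain ⟨R', hR'⟩ : ∃ R' : ℝ, ∀ s : ℂ, R' < ‖s‖ → (I.b 0).eval s ≠ 0 := by
    have hbdd : Bornology.IsBounded ((I.b 0).roots.toFinset : Set ℂ) :=
      (Finset.finite_toSet _).isBounded
    obtain ⟨R', hR'⟩ := hbdd.exists_norm_le
    refine ⟨R', fun s hs h0 => ?_⟩
    have : s ∈ ((I.b 0).roots.toFinset : Set ℂ) := by
      simp only [Finset.mem_coe, Multiset.mem_toFinset]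
      rw [Polynomial.mem_roots hb]
      exact h0
    linarith [hR' s this]
  obtain ⟨p, hp1, hp2, hp3⟩ := entire_poly ψ hψ k (I.d + 1) (max R R') C
    (hR1.trans (le_max_left _ _)) (by
      intro s hs
      have h1 : R < ‖s‖ := lt_of_le_of_lt (le_max_left _ _) hs
      have h2 : R' < ‖s‖ := lt_of_le_of_lt (le_max_right _ _) hs
      rw [hψφ s (hR' s h2)]
      exact hRC s h1)
  exact ⟨p, fun s hs => by rw [← hψφ s hs, hp1 s], hp2, hp3⟩

end Pool.GL.H63
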